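import Mathlib

/-!
# Rationally elliptic varieties: the definitions used in the statement

* rational singular homology and cohomology of a topological space;
* rationally elliptic spaces;
* quasi-projective sets in projective space, regular maps, smooth sets;
* mixed Hodge structures and mixed Hodge theories.
-/

namespace Pool.Agent.H93.HT

open scoped Topology LinearAlgebra.Projectivization TensorProduct

noncomputable section

/-! ## Rational homology of semi-simplicial sets -/

/-- A semi-simplicial set: sets of `n`-simplices and face maps with the simplicial identity. -/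
structure SSt where
  /-- the set of `n`-simplices -/
  obj : ℕ → Type
  /-- the face maps -/
  d : (n : ℕ) → Fin (n + 2) → obj (n + 1) → obj n
  /-- the simplicial identity -/
  dd : ∀ (n : ℕ) (i j : Fin (n + 2)), i ≤ j → ∀ x : obj (n + 2),
    d n i (d (n + 1) j.succ x) = d n j (d (n + 1) i.castSucc x)

namespace SSt

/-- rational `n`-chains: formal linear combinations of `n`-simplices -/
abbrev Ch (S : SSt) (n : ℕ) : Type := S.obj n →₀ ℚ

/-- the boundary operator from `n+1`-chains to `n`-chains: the alternating sum of the faces -/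
def bd (S : SSt) (n : ℕ) : S.Ch (n + 1) →ₗ[ℚ] S.Ch n :=
  ∑ i : Fin (n + 2), ((-1 : ℚ) ^ (i : ℕ)) • Finsupp.lmapDomain ℚ ℚ (S.d n i)

/-- the `n`-cycles -/
def cyc (S : SSt) : (n : ℕ) → Submodule ℚ (S.Ch n)
  | 0 => ⊤
  | n + 1 => LinearMap.ker (S.bd n)

/-- the `n`-th rational homology: cycles modulo boundaries -/
abbrev H (S : SSt) (n : ℕ) : Type :=
  ↥(S.cyc n) ⧸ (LinearMap.range (S.bd n)).comap (S.cyc n).subtype

/-- A map of semi-simplicial sets. -/
structure Hom (S T : SSt) where
  /-- the map on `n`-simplices -/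
  f : (n : ℕ) → S.obj n → T.obj n
  /-- compatibility with the face maps -/
  comm : ∀ (n : ℕ) (i : Fin (n + 2)) (x : S.obj (n + 1)), f n (S.d n i x) = T.d n i (f (n + 1) x)

variable {S T : SSt}

/-- the induced map on chains -/
def Hom.ch (φ : Hom S T) (n : ℕ) : S.Ch n →ₗ[ℚ] T.Ch n := Finsupp.lmapDomain ℚ ℚ (φ.f n)

theorem Hom.ch_bd (φ : Hom S T) (n : ℕ) (c : S.Ch (n + 1)) :
    φ.ch n (S.bd n c) = T.bd n (φ.ch (n + 1) c) := by
  simp only [bd, LinearMap.sum_apply, map_sum, LinearMap.smul_apply, map_smul]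
  refine Finset.sum_congr rfl fun i _ => ?_
  congr 1
  simp only [Hom.ch, Finsupp.lmapDomain_apply, ← Finsupp.mapDomain_comp]
  congr 1
  funext x
  exact φ.comm n i x

theorem Hom.ch_cyc (φ : Hom S T) (n : ℕ) (c : S.Ch n) (hc : c ∈ S.cyc n) :
    φ.ch n c ∈ T.cyc n := by
  cases n with
  | zero => exact Submodule.mem_top
  | succ n =>
    have h : S.bd n c = 0 := hc
    change T.bd n (φ.ch (n + 1) c) = 0
    rw [← φ.ch_bd, h, map_zero]

/-- the induced map on homology -/
def Hom.map (φ : Hom S T) (n : ℕ) : S.H n →ₗ[ℚ] T.H n :=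
  Submodule.mapQ _ _ ((φ.ch n).restrict (φ.ch_cyc n)) (by
    rintro ⟨c, hc⟩ ⟨w, hw⟩
    exact ⟨φ.ch (n + 1) w, by
      have h : S.bd n w = c := hw
      change T.bd n (φ.ch (n + 1) w) = φ.ch n c
      rw [← φ.ch_bd, h]⟩)

end SSt

/-! ## Singular homology and cohomology with rational coefficients -/

/-- the standard `n`-simplex -/
abbrev Del (n : ℕ) : Type := ↥(stdSimplex ℝ (Fin (n + 1)))

/-- the inclusion of the `i`-th face of the standard simplex -/
def face {n : ℕ} (i : Fin (n + 2)) : C(Del n, Del (n + 1)) :=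
  ⟨stdSimplex.map i.succAbove, stdSimplex.continuous_map _⟩

theorem succAbove_comm {n : ℕ} (i j : Fin (n + 2)) (h : i ≤ j) (k : Fin (n + 1)) :
    j.succ.succAbove (i.succAbove k) = i.castSucc.succAbove (j.succAbove k) := by
  rw [Fin.le_def] at h
  apply Fin.ext
  simp only [Fin.succAbove, Fin.lt_def]
  split_ifs <;> simp_all <;> omega

theorem face_face {n : ℕ} (i j : Fin (n + 2)) (h : i ≤ j) (x : Del n) :
    face j.succ (face i x) = face i.castSucc (face j x) := by
  simp only [face, ContinuousMap.coe_mk]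
  rw [stdSimplex.map_comp_apply, stdSimplex.map_comp_apply]
  congr 1
  funext k
  exact succAbove_comm i j h k

/-- the singular semi-simplicial set of a topological space -/
def Sing (X : Type) [TopologicalSpace X] : SSt where
  obj n := C(Del n, X)
  d _ i σ := σ.comp (face i)
  dd _ i j h σ := by
    ext x
    exact congrArg σ (face_face i j h x)

/-- the map of singular semi-simplicial sets induced by a continuous map -/
def singMap {X Y : Type} [TopologicalSpace X] [TopologicalSpace Y] (f : C(X, Y)) :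
    SSt.Hom (Sing X) (Sing Y) where
  f _ σ := f.comp σ
  comm _ _ _ := rfl

/-- `n`-th singular homology with rational coefficients -/
abbrev Hh (X : Type) [TopologicalSpace X] (n : ℕ) : Type := (Sing X).H n

/-- the map induced by a continuous map on rational singular homology -/
def Hmap {X Y : Type} [TopologicalSpace X] [TopologicalSpace Y] (f : C(X, Y)) (n : ℕ) :
    Hh X n →ₗ[ℚ] Hh Y n := (singMap f).map n

/-- `n`-th singular cohomology with rational coefficients, as the dual of homology -/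
abbrev Hc (X : Type) [TopologicalSpace X] (n : ℕ) : Type := Module.Dual ℚ (Hh X n)

/-- the pull-back on rational singular cohomology -/
def pull {X Y : Type} [TopologicalSpace X] [TopologicalSpace Y] (f : C(X, Y)) (n : ℕ) :
    Hc Y n →ₗ[ℚ] Hc X n := (Hmap f n).dualMap

/-- `X` is rationally elliptic: simply connected, with finite-dimensional total rational
cohomology and finite-dimensional total rational homotopy (`X` being path connected, the choice
of the base point does not matter). -/
structure RationallyElliptic (X : Type) [TopologicalSpace X] : Prop where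
  /-- simply connected -/
  simply : SimplyConnectedSpace X
  /-- each rational cohomology group is finite-dimensional -/
  coh_fin : ∀ n, FiniteDimensional ℚ (Hc X n)
  /-- the rational cohomology vanishes in large degrees -/
  coh_zero : ∃ N, ∀ n, N ≤ n → Subsingleton (Hc X n)
  /-- each rational homotopy group is finite-dimensional, and they vanish in large degrees -/
  pi_fin : ∃ x : X, (∀ m, FiniteDimensional ℚ (ℚ ⊗[ℤ] Additive (π_ (m + 2) X x))) ∧
    ∃ N, ∀ m, N ≤ m → Subsingleton (ℚ ⊗[ℤ] Additive (π_ (m + 2) X x))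

/-! ## Quasi-projective varieties -/

/-- complex projective space with homogeneous coordinates indexed by `κ` -/
def PSp (κ : Type) : Type := ℙ ℂ (κ → ℂ)

/-- the point with given homogeneous coordinates -/
def PSp.mk {κ : Type} (v : κ → ℂ) (hv : v ≠ 0) : PSp κ := Projectivization.mk ℂ v hv

/-- homogeneous coordinates of a point -/
def PSp.rep {κ : Type} (p : PSp κ) : κ → ℂ := Projectivization.rep p

/-- the classical topology of projective space: the quotient topology -/
instance (κ : Type) : TopologicalSpace (PSp κ) :=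
  TopologicalSpace.coinduced (fun v : {v : κ → ℂ // v ≠ 0} => PSp.mk v.1 v.2) inferInstance

variable {κ κ' : Type}

/-- Zariski closed sets: common zeros of homogeneous polynomials -/
def ZClosed (S : Set (PSp κ)) : Prop :=
  ∃ A : Set (MvPolynomial κ ℂ), (∀ F ∈ A, ∃ d, F.IsHomogeneous d) ∧
    S = {p | ∀ F ∈ A, MvPolynomial.eval p.rep F = 0}

/-- quasi-projective varieties: locally closed subsets of projective space -/
def QuasiProj (S : Set (PSp κ)) : Prop :=
  ∃ A B : Set (PSp κ), ZClosed A ∧ ZClosed B ∧ S = A \ B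

/-- irreducible in the Zariski topology -/
def Irred (S : Set (PSp κ)) : Prop :=
  S.Nonempty ∧ ∀ A B : Set (PSp κ), ZClosed A → ZClosed B → S ⊆ A ∪ B → S ⊆ A ∨ S ⊆ B

/-- regular maps: locally given by homogeneous polynomials of the same degree -/
def IsRegular {S : Set (PSp κ)} {S' : Set (PSp κ')} (f : C(S, S')) : Prop :=
  ∀ p : S, ∃ (d : ℕ) (F : κ' → MvPolynomial κ ℂ), (∀ j, (F j).IsHomogeneous d) ∧
    (fun j => MvPolynomial.eval p.1.rep (F j)) ≠ 0 ∧
    ∀ (q : S) (h : (fun j => MvPolynomial.eval q.1.rep (F j)) ≠ 0), (f q).1 = PSp.mk _ h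

/-- the gradient of a polynomial -/
def grad (F : MvPolynomial κ ℂ) (v : κ → ℂ) : κ → ℂ :=
  fun j => MvPolynomial.eval v (MvPolynomial.pderiv j F)

/-- `S` is smooth of pure codimension `c`: near each of its points it is given by `c` homogeneous
equations with linearly independent gradients -/
def SmoothCodim (S : Set (PSp κ)) (c : ℕ) : Prop :=
  ∀ p ∈ S, ∃ F : Fin c → MvPolynomial κ ℂ, (∀ i, ∃ d, (F i).IsHomogeneous d) ∧
    (∀ i, ∀ q ∈ S, MvPolynomial.eval q.rep (F i) = 0) ∧
    LinearIndependent ℂ (fun i => grad (F i) p.rep) ∧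
    ∃ G : MvPolynomial κ ℂ, (∃ d, G.IsHomogeneous d) ∧ MvPolynomial.eval p.rep G ≠ 0 ∧
      ∀ q : PSp κ, MvPolynomial.eval q.rep G ≠ 0 →
        (∀ i, MvPolynomial.eval q.rep (F i) = 0) → q ∈ S

/-- the inclusion of a subset into a larger subset -/
def incl {X : Type} [TopologicalSpace X] {S T : Set X} (h : S ⊆ T) : C(S, T) :=
  ⟨Set.inclusion h, continuous_inclusion h⟩

/-! ## Mixed Hodge structures -/

section MHS

variable {V V' : Type} [AddCommGroup V] [Module ℚ V] [AddCommGroup V'] [Module ℚ V']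

/-- complex conjugation on the complexification of a rational vector space -/
def cconj : (ℂ ⊗[ℚ] V) →ₗ[ℚ] (ℂ ⊗[ℚ] V) :=
  LinearMap.rTensor V ((Complex.conjAe.toLinearMap).restrictScalars ℚ)

/-- `(W, F)` is a rational mixed Hodge structure on `V`: `W` is a finite increasing filtration of
`V`, `F` is a finite decreasing filtration of the complexification, and for every weight `m` the
filtration induced by `F` on `Gr^W_m` is `m`-opposed to its complex conjugate. -/
structure IsMHS (W : ℤ → Submodule ℚ V) (F : ℤ → Submodule ℂ (ℂ ⊗[ℚ] V)) : Prop where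
  W_mono : Monotone W
  W_bot : ∃ a, W a = ⊥
  W_top : ∃ b, W b = ⊤
  F_anti : Antitone F
  F_top : ∃ a, F a = ⊤
  F_bot : ∃ b, F b = ⊥
  /-- `Gr^W_m` is the sum of `F^p` and the conjugate of `F^q` if `p + q = m + 1` -/
  opp_sup : ∀ m p q : ℤ, p + q = m + 1 → ∀ x ∈ (W m).baseChange ℂ,
    ∃ y ∈ F p ⊓ (W m).baseChange ℂ, ∃ z ∈ F q ⊓ (W m).baseChange ℂ,
      x - y - cconj z ∈ (W (m - 1)).baseChange ℂ
  /-- and this sum is direct -/
  opp_inf : ∀ m p q : ℤ, p + q = m + 1 → ∀ y ∈ F p ⊓ (W m).baseChange ℂ,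
    ∀ z ∈ F q ⊓ (W m).baseChange ℂ, y - cconj z ∈ (W (m - 1)).baseChange ℂ →
      y ∈ (W (m - 1)).baseChange ℂ

/-- the preimage in `W_m` of the step `F^p` of the Hodge filtration of `Gr^W_m` -/
def grF (W : ℤ → Submodule ℚ V) (F : ℤ → Submodule ℂ (ℂ ⊗[ℚ] V)) (m p : ℤ) :
    Submodule ℂ (ℂ ⊗[ℚ] V) :=
  (F p ⊓ (W m).baseChange ℂ) ⊔ (W (m - 1)).baseChange ℂ

/-- the Hodge number `h^{p,q}`: the dimension of `Gr_F^p Gr^W_{p+q}` -/
def hodge (W : ℤ → Submodule ℚ V) (F : ℤ → Submodule ℂ (ℂ ⊗[ℚ] V)) (p q : ℤ) : ℕ :=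
  Module.finrank ℂ
    (↥(grF W F (p + q) p) ⧸ (grF W F (p + q) (p + 1)).comap (grF W F (p + q) p).subtype)

/-- a linear map is compatible with the filtrations, with a Tate twist by `r` -/
def Resp (W : ℤ → Submodule ℚ V) (F : ℤ → Submodule ℂ (ℂ ⊗[ℚ] V))
    (W' : ℤ → Submodule ℚ V') (F' : ℤ → Submodule ℂ (ℂ ⊗[ℚ] V')) (φ : V →ₗ[ℚ] V') (r : ℤ) :
    Prop :=
  (∀ m, ∀ x ∈ W m, φ x ∈ W' (m + 2 * r)) ∧ (∀ p, ∀ x ∈ F p, φ.baseChange ℂ x ∈ F' (p + r))

end MHS

/-- A mixed Hodge theory: mixed Hodge structures on the rational singular cohomology of all complex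
quasi-projective varieties, functorial for regular maps, pure in the smooth projective case, and
compatible with the Gysin sequence of a smooth divisor. Deligne's theory is one. -/
structure MixedHodgeTheory where
  /-- the weight filtration of `H^k(S; ℚ)` -/
  W : {κ : Type} → [Fintype κ] → (S : Set (PSp κ)) → (k : ℕ) → ℤ → Submodule ℚ (Hc S k)
  /-- the Hodge filtration of `H^k(S; ℂ)` -/
  F : {κ : Type} → [Fintype κ] → (S : Set (PSp κ)) → (k : ℕ) → ℤ → Submodule ℂ (ℂ ⊗[ℚ] Hc S k)
  /-- they form a mixed Hodge structure -/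
  mhs : ∀ {κ : Type} [Fintype κ] (S : Set (PSp κ)) (k : ℕ), QuasiProj S → IsMHS (W S k) (F S k)
  /-- regular maps induce morphisms of mixed Hodge structures -/
  functorial : ∀ {κ κ' : Type} [Fintype κ] [Fintype κ'] (S : Set (PSp κ)) (S' : Set (PSp κ'))
    (f : C(S, S')), QuasiProj S → QuasiProj S' → IsRegular f →
    ∀ k, Resp (W S' k) (F S' k) (W S k) (F S k) (pull f k) 0
  /-- purity: `H^k` of a smooth projective variety is pure of weight `k` -/
  pure : ∀ {κ : Type} [Fintype κ] (S : Set (PSp κ)) (c : ℕ), ZClosed S → SmoothCodim S c →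
    ∀ k : ℕ, W S k ((k : ℤ) - 1) = ⊥ ∧ W S k (k : ℤ) = ⊤
  /-- the Gysin sequence of a smooth divisor `Z` in a smooth variety `X`:
  `H^{k+1}(X) → H^{k+1}(X ∖ Z) → H^k(Z)(-1) → H^{k+2}(X) → H^{k+2}(X ∖ Z)` is an exact sequence
  of mixed Hodge structures -/
  gysin : ∀ {κ : Type} [Fintype κ] (X Z : Set (PSp κ)) (c : ℕ), QuasiProj X → SmoothCodim X c →
    (∃ A : Set (PSp κ), ZClosed A ∧ Z = X ∩ A) → SmoothCodim Z (c + 1) →
    ∃ (r : ∀ k : ℕ, Hc ↥(X \ Z) (k + 1) →ₗ[ℚ] Hc Z k) (g : ∀ k : ℕ, Hc Z k →ₗ[ℚ] Hc X (k + 2)),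
      ∀ k : ℕ,
        Resp (W (X \ Z) (k + 1)) (F (X \ Z) (k + 1)) (W Z k) (F Z k) (r k) (-1) ∧
        Resp (W Z k) (F Z k) (W X (k + 2)) (F X (k + 2)) (g k) 1 ∧
        LinearMap.range (pull (incl (Set.sdiff_subset : X \ Z ⊆ X)) (k + 1)) =
          LinearMap.ker (r k) ∧
        LinearMap.range (r k) = LinearMap.ker (g k) ∧
        LinearMap.range (g k) =
          LinearMap.ker (pull (incl (Set.sdiff_subset : X \ Z ⊆ X)) (k + 2))

/-- the mixed Hodge numbers `h^{k,p,q}` -/
def MixedHodgeTheory.h (T : MixedHodgeTheory) {κ : Type} [Fintype κ] (S : Set (PSp κ)) (k : ℕ)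
    (p q : ℤ) : ℕ := hodge (T.W S k) (T.F S k) p q

end

end Pool.Agent.H93.HT
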